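import Mathlib

/-!
Artin's conjecture along arbitrary sets of primes (helper890), part 1: functions modulo a prime with
small Fourier norm.
-/

set_option autoImplicit false

namespace Pool.Agent.TH890.AS

open Finset

variable {p : ℕ} [hp : Fact p.Prime]

/-- functions which are combinations of Dirichlet characters with coefficients of total size at most
`K` -/
def Rep (p : ℕ) [Fact p.Prime] (f : ZMod p → ℂ) (K : ℝ) : Prop :=
  ∃ c : DirichletCharacter ℂ p → ℂ, ∑ χ, ‖c χ‖ ≤ K ∧ ∀ x : ZMod p, f x = ∑ χ, c χ * χ x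

/-- combinations over any finite index set -/
lemma rep_of {ι : Type*} [Fintype ι] {f : ZMod p → ℂ} {K : ℝ} (a : ι → ℂ)
    (π : ι → DirichletCharacter ℂ p) (ha : ∑ i, ‖a i‖ ≤ K) (hf : ∀ x : ZMod p, f x = ∑ i, a i * π i x) :
    Rep p f K := by
  classical
  refine ⟨fun χ => ∑ i ∈ univ.filter (fun i => π i = χ), a i, ?_, fun x => ?_⟩
  · calc ∑ χ, ‖∑ i ∈ univ.filter (fun i => π i = χ), a i‖
        ≤ ∑ χ, ∑ i ∈ univ.filter (fun i => π i = χ), ‖a i‖ := sum_le_sum fun χ _ => norm_sum_le _ _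
      _ = ∑ i, ‖a i‖ := sum_fiberwise (s := univ) π (fun i => ‖a i‖)
      _ ≤ K := ha
  · rw [hf x]
    calc ∑ i, a i * π i x = ∑ χ, ∑ i ∈ univ.filter (fun i => π i = χ), a i * π i x :=
          (sum_fiberwise (s := univ) π (fun i => a i * π i x)).symm
      _ = _ := by
          refine sum_congr rfl fun χ _ => ?_
          rw [sum_mul]
          refine sum_congr rfl fun i hi => ?_
          rw [(mem_filter.1 hi).2]

/-- the principal character -/
lemma rep_one : Rep p (fun x => (1 : DirichletCharacter ℂ p) x) 1 := by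
  refine rep_of (ι := Unit) (fun _ => 1) (fun _ => 1) (by simp) (fun x => by simp)

lemma rep_mul {f g : ZMod p → ℂ} {K L : ℝ} (hf : Rep p f K) (hg : Rep p g L) (hK : 0 ≤ K) :
    Rep p (fun x => f x * g x) (K * L) := by
  obtain ⟨a, ha, ha'⟩ := hf
  obtain ⟨b, hb, hb'⟩ := hg
  refine rep_of (ι := DirichletCharacter ℂ p × DirichletCharacter ℂ p) (fun i => a i.1 * b i.2)
    (fun i => i.1 * i.2) ?_ (fun x => ?_)
  · rw [Fintype.sum_prod_type]
    simp only [norm_mul]
    rw [← Fintype.sum_mul_sum]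
    exact mul_le_mul ha hb (sum_nonneg fun _ _ => norm_nonneg _) hK
  · rw [ha' x, hb' x, Fintype.sum_mul_sum, Fintype.sum_prod_type]
    refine sum_congr rfl fun χ _ => sum_congr rfl fun ψ _ => ?_
    rw [MulChar.mul_apply]
    ring

lemma rep_sub {f g : ZMod p → ℂ} {K L : ℝ} (hf : Rep p f K) (hg : Rep p g L) :
    Rep p (fun x => f x - g x) (K + L) := by
  obtain ⟨a, ha, ha'⟩ := hf
  obtain ⟨b, hb, hb'⟩ := hg
  refine ⟨fun χ => a χ - b χ, ?_, fun x => ?_⟩
  · calc ∑ χ, ‖a χ - b χ‖ ≤ ∑ χ, (‖a χ‖ + ‖b χ‖) := sum_le_sum fun χ _ => norm_sub_le _ _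
      _ = ∑ χ, ‖a χ‖ + ∑ χ, ‖b χ‖ := sum_add_distrib
      _ ≤ K + L := add_le_add ha hb
  · simp only
    rw [ha' x, hb' x, ← sum_sub_distrib]
    refine sum_congr rfl fun χ _ => ?_
    ring

lemma rep_prod {ι : Type*} (s : Finset ι) (f : ι → ZMod p → ℂ) (K : ι → ℝ) (hK : ∀ i ∈ s, 0 ≤ K i)
    (hf : ∀ i ∈ s, Rep p (f i) (K i)) :
    Rep p (fun x => (1 : DirichletCharacter ℂ p) x * ∏ i ∈ s, f i x) (∏ i ∈ s, K i) := by
  classical
  induction s using Finset.induction_on with
  | empty => simpa using rep_one (p := p)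
  | insert i s hi ih =>
    have h1 := ih (fun j hj => hK j (mem_insert_of_mem hj)) (fun j hj => hf j (mem_insert_of_mem hj))
    have h2 := rep_mul (hf i (mem_insert_self _ _)) h1 (hK i (mem_insert_self _ _))
    rw [prod_insert hi]
    have e : (fun x => (1 : DirichletCharacter ℂ p) x * ∏ j ∈ insert i s, f j x) =
        (fun x => f i x * ((1 : DirichletCharacter ℂ p) x * ∏ j ∈ s, f j x)) := by
      funext x
      rw [prod_insert hi]
      ring
    rw [e]
    exact h2

/-- pulling back along `x ↦ b x ^ r` -/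
lemma rep_pull {f : ZMod p → ℂ} {K : ℝ} (hf : Rep p f K) (b : ZMod p) {r : ℕ} (hr : r ≠ 0) :
    Rep p (fun x => f (b * x ^ r)) K := by
  obtain ⟨a, ha, ha'⟩ := hf
  refine rep_of (fun χ => a χ * χ b) (fun χ => χ ^ r) ?_ (fun x => ?_)
  · refine le_trans (sum_le_sum fun χ _ => ?_) ha
    rw [norm_mul]
    exact mul_le_of_le_one_right (norm_nonneg _) (DirichletCharacter.norm_le_one χ b)
  · rw [ha']
    refine sum_congr rfl fun χ _ => ?_
    rw [map_mul, map_pow, MulChar.pow_apply' χ hr]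
    ring

/-- the indicator function of the solutions of `x ^ k = 1` -/
lemma rep_ker {k : ℕ} (hk : k ≠ 0) : Rep p (fun x => if x ^ k = 1 then (1 : ℂ) else 0) 1 := by
  classical
  set Y : Finset (ZMod p) := univ.filter (fun y => y ^ k = 1) with hY
  set n : ℂ := ((p.totient : ℕ) : ℂ) with hn
  have hp0 : 0 < p.totient := Nat.totient_pos.2 hp.out.pos
  have hn0 : n ≠ 0 := by rw [hn]; exact_mod_cast hp0.ne'
  have hYu : ∀ y ∈ Y, y ≠ 0 := by
    intro y hy h0
    rw [hY, mem_filter, h0, zero_pow hk] at hy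
    exact zero_ne_one hy.2
  have hmemY : ∀ y, y ∈ Y ↔ y ^ k = 1 := fun y => by rw [hY, mem_filter]; simp
  set c : DirichletCharacter ℂ p → ℂ := fun χ => n⁻¹ * ∑ y ∈ Y, χ y⁻¹ with hc
  have hrep : ∀ x : ZMod p, (if x ^ k = 1 then (1 : ℂ) else 0) = ∑ χ, c χ * χ x := by
    intro x
    have h1 : ∑ χ, c χ * χ x = n⁻¹ * ∑ y ∈ Y, ∑ χ : DirichletCharacter ℂ p, χ y⁻¹ * χ x := by
      rw [sum_comm, mul_sum]
      refine sum_congr rfl fun χ _ => ?_
      simp only [hc]
      rw [← sum_mul]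
      ring
    have h2 : ∀ y ∈ Y, ∑ χ : DirichletCharacter ℂ p, χ y⁻¹ * χ x = if y = x then n else 0 := by
      intro y hy
      rw [DirichletCharacter.sum_char_inv_mul_char_eq ℂ (isUnit_iff_ne_zero.2 (hYu y hy)) x, hn]
    rw [h1, sum_congr rfl h2, sum_ite_eq']
    by_cases hx : x ^ k = 1
    · rw [if_pos hx, if_pos ((hmemY x).2 hx), inv_mul_cancel₀ hn0]
    · rw [if_neg hx, if_neg (fun h => hx ((hmemY x).1 h)), mul_zero]
  have hpos : ∀ χ, c χ = ((‖c χ‖ : ℝ) : ℂ) := by
    intro χ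
    by_cases hχ : ∀ y ∈ Y, χ y⁻¹ = 1
    · have e : c χ = (((#Y : ℝ) / (p.totient : ℝ) : ℝ) : ℂ) := by
        simp only [hc]
        rw [sum_congr rfl hχ, sum_const, nsmul_eq_mul, mul_one, hn]
        push_cast
        rw [div_eq_inv_mul]
      rw [e, Complex.norm_real, Real.norm_eq_abs, abs_of_nonneg (by positivity)]
    · push Not at hχ
      obtain ⟨y₀, hy₀, hne⟩ := hχ
      have hS : χ y₀⁻¹ * ∑ y ∈ Y, χ y⁻¹ = ∑ y ∈ Y, χ y⁻¹ := by
        rw [mul_sum]
        refine sum_bij' (fun y _ => y₀ * y) (fun y _ => y₀⁻¹ * y) ?_ ?_ ?_ ?_ ?_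
        · intro y hy
          rw [hmemY] at hy ⊢
          rw [mul_pow, hy, (hmemY y₀).1 hy₀, one_mul]
        · intro y hy
          rw [hmemY] at hy ⊢
          rw [mul_pow, inv_pow, hy, (hmemY y₀).1 hy₀, inv_one, one_mul]
        · intro y _
          rw [← mul_assoc, inv_mul_cancel₀ (hYu y₀ hy₀), one_mul]
        · intro y _
          rw [← mul_assoc, mul_inv_cancel₀ (hYu y₀ hy₀), one_mul]
        · intro y _
          rw [mul_inv, map_mul]
      have hS0 : ∑ y ∈ Y, χ y⁻¹ = 0 := by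
        by_contra h
        have : χ y₀⁻¹ = 1 := mul_right_cancel₀ h (by rw [hS, one_mul])
        exact hne this
      simp only [hc]
      rw [hS0, mul_zero]
      simp
  refine ⟨c, ?_, hrep⟩
  have h1 := hrep 1
  rw [one_pow, if_pos rfl] at h1
  have h2 : ((∑ χ, ‖c χ‖ : ℝ) : ℂ) = 1 := by
    push_cast
    rw [h1]
    refine sum_congr rfl fun χ _ => ?_
    rw [map_one, mul_one]
    exact (hpos χ).symm
  have h3 : ∑ χ, ‖c χ‖ = 1 := by exact_mod_cast h2
  exact h3.le

/-- the indicator function of the primitive roots -/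
lemma rep_prim : Rep p (fun x => if orderOf x = p - 1 then (1 : ℂ) else 0)
    (∏ l ∈ (p - 1).primeFactors, ((1 : ℝ) + 1)) := by
  classical
  have hp1 : 0 < p - 1 := by have := hp.out.one_lt; omega
  have h := rep_prod (p := p) (p - 1).primeFactors
    (fun l x => (1 : DirichletCharacter ℂ p) x - (if x ^ ((p - 1) / l) = 1 then (1 : ℂ) else 0))
    (fun _ => (1 : ℝ) + 1) (fun _ _ => by norm_num)
    (fun l hl => rep_sub rep_one (rep_ker (by
      have h1 := Nat.le_of_dvd hp1 (Nat.dvd_of_mem_primeFactors hl)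
      have h2 := (Nat.prime_of_mem_primeFactors hl).pos
      exact (Nat.div_pos h1 h2).ne')))
  convert h using 1
  funext x
  by_cases hx : x = 0
  · subst hx
    have h0 : orderOf (0 : ZMod p) ≠ p - 1 := by
      intro h1
      have h2 : (0 : ZMod p) ^ (p - 1) = 1 := by rw [← h1]; exact pow_orderOf_eq_one _
      rw [zero_pow hp1.ne'] at h2
      exact zero_ne_one h2
    rw [if_neg h0, MulChar.map_zero, zero_mul]
  · have hu : (1 : DirichletCharacter ℂ p) x = 1 := MulChar.one_apply (isUnit_iff_ne_zero.2 hx)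
    have hx1 : x ^ (p - 1) = 1 := ZMod.pow_card_sub_one_eq_one hx
    simp only [hu, one_mul]
    by_cases ho : orderOf x = p - 1
    · rw [if_pos ho]
      symm
      apply prod_eq_one
      intro l hl
      have h3 : x ^ ((p - 1) / l) ≠ 1 := by
        have hl1 := (Nat.prime_of_mem_primeFactors hl).one_lt
        have hl2 : 0 < (p - 1) / l :=
          Nat.div_pos (Nat.le_of_dvd hp1 (Nat.dvd_of_mem_primeFactors hl)) (by omega)
        apply pow_ne_one_of_lt_orderOf hl2.ne'
        rw [ho]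
        exact Nat.div_lt_self hp1 hl1
      rw [if_neg h3, sub_zero]
    · rw [if_neg ho]
      have h3 : ∃ l ∈ (p - 1).primeFactors, x ^ ((p - 1) / l) = 1 := by
        by_contra hcon
        push Not at hcon
        apply ho
        apply orderOf_eq_of_pow_and_pow_div_prime hp1 hx1
        intro l hl hd
        exact hcon l (Nat.mem_primeFactors.2 ⟨hl, hd, hp1.ne'⟩)
      obtain ⟨l, hl, h4⟩ := h3
      symm
      apply prod_eq_zero hl
      rw [if_pos h4, sub_self]

/-- primitive roots of the form `b x ^ r` -/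
lemma rep_art (b : ZMod p) {r : ℕ} (hr : r ≠ 0) :
    Rep p (fun x => if orderOf (b * x ^ r) = p - 1 then (1 : ℂ) else 0)
      (∏ l ∈ (p - 1).primeFactors, ((1 : ℝ) + 1)) :=
  rep_pull rep_prim b hr

end Pool.Agent.TH890.AS
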