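import Pool.Agent.TH890.AS.R1
import Pool.Agent.H771R4.SE.LS

/-!
Artin's conjecture along arbitrary sets of primes (helper890), part 2: the large sieve argument for
arbitrary sets of residues with small Fourier norm.
-/

set_option autoImplicit false

namespace Pool.Agent.TH890.AS

open Finset
open Pool.Agent.H386R2.Artin (PP Good)

/-- sums over a set on which all non-principal characters are small -/
lemma good_sum {p : ℕ} [hp : Fact p.Prime] {f : ZMod p → ℂ} {K : ℝ} (hf : Rep p f K) {E : Finset ℕ}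
    {M : ℝ} (hM : 0 ≤ M) (hG : Good E M p) :
    ‖∑ m ∈ E, f (m : ZMod p) - (∑ x, f x) / ((p - 1 : ℕ) : ℂ) *
      ((#(E.filter (fun m => ¬ p ∣ m)) : ℕ) : ℂ)‖ ≤ K * M := by
  classical
  obtain ⟨c, hc, hf⟩ := hf
  have hp1 : ((p - 1 : ℕ) : ℂ) ≠ 0 := by
    have := hp.out.one_lt
    exact_mod_cast (by omega : p - 1 ≠ 0)
  have h1 : (∑ x, f x) / ((p - 1 : ℕ) : ℂ) = c 1 := by
    have e : ∑ x, f x = c 1 * ((p - 1 : ℕ) : ℂ) := by
      simp only [hf]
      rw [sum_comm]
      simp only [← mul_sum]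
      rw [sum_eq_single (1 : DirichletCharacter ℂ p)]
      · rw [MulChar.sum_one_eq_card_units, ZMod.card_units]
      · intro χ _ hχ
        rw [MulChar.sum_eq_zero_of_ne_one hχ, mul_zero]
      · intro h
        exact absurd (mem_univ _) h
    rw [e, mul_div_cancel_right₀ _ hp1]
  have h2 : ∑ m ∈ E, (1 : DirichletCharacter ℂ p) (m : ZMod p) =
      ((#(E.filter (fun m => ¬ p ∣ m)) : ℕ) : ℂ) := by
    rw [card_filter]
    push_cast
    refine sum_congr rfl fun m _ => ?_
    by_cases h : p ∣ m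
    · rw [if_neg (by simpa using h), (ZMod.natCast_eq_zero_iff m p).2 h, MulChar.map_zero]
    · rw [if_pos h, MulChar.one_apply]
      rw [isUnit_iff_ne_zero]
      intro h3
      exact h ((ZMod.natCast_eq_zero_iff m p).1 h3)
  have h3 : ∑ m ∈ E, f (m : ZMod p) - c 1 * ((#(E.filter (fun m => ¬ p ∣ m)) : ℕ) : ℂ) =
      ∑ χ ∈ univ.erase (1 : DirichletCharacter ℂ p), c χ * ∑ m ∈ E, χ (m : ZMod p) := by
    have e : ∑ m ∈ E, f (m : ZMod p) = ∑ χ, c χ * ∑ m ∈ E, χ (m : ZMod p) := by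
      simp only [hf]
      rw [sum_comm]
      simp only [← mul_sum]
    rw [e, ← h2, ← add_sum_erase univ _ (mem_univ (1 : DirichletCharacter ℂ p))]
    ring
  rw [h1, h3]
  calc ‖∑ χ ∈ univ.erase (1 : DirichletCharacter ℂ p), c χ * ∑ m ∈ E, χ (m : ZMod p)‖
      ≤ ∑ χ ∈ univ.erase (1 : DirichletCharacter ℂ p), ‖c χ‖ * M := by
        refine (norm_sum_le _ _).trans (sum_le_sum fun χ hχ => ?_)
        rw [norm_mul]
        exact mul_le_mul_of_nonneg_left (hG χ (ne_of_mem_erase hχ)) (norm_nonneg _)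
    _ ≤ ∑ χ, ‖c χ‖ * M :=
        sum_le_sum_of_subset_of_nonneg (erase_subset _ _) fun _ _ _ => by positivity
    _ = (∑ χ, ‖c χ‖) * M := (sum_mul _ _ _).symm
    _ ≤ K * M := mul_le_mul_of_nonneg_right hc hM

/-- the proportion of the residues with a property -/
noncomputable def dens (p : ℕ) (T : ZMod p → Prop) : ℝ := by
  classical
  exact if h : p = 0 then 0 else
    haveI : NeZero p := ⟨h⟩
    (#((univ : Finset (ZMod p)).filter T) : ℝ) / ((p - 1 : ℕ) : ℝ)

lemma dens_eq {p : ℕ} [hp : Fact p.Prime] (T : ZMod p → Prop) [DecidablePred T] :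
    dens p T = (#((univ : Finset (ZMod p)).filter T) : ℝ) / ((p - 1 : ℕ) : ℝ) := by
  unfold dens
  rw [dif_neg hp.out.ne_zero]
  congr!

lemma dens_nonneg (p : ℕ) (T : ZMod p → Prop) : 0 ≤ dens p T := by
  unfold dens
  split_ifs
  · exact le_rfl
  · positivity

lemma dens_le_one {p : ℕ} [hp : Fact p.Prime] (T : ZMod p → Prop) (h0 : ¬ T 0) : dens p T ≤ 1 := by
  classical
  rw [dens_eq]
  have hp1 : (0 : ℝ) < ((p - 1 : ℕ) : ℝ) := by
    have := hp.out.one_lt
    exact_mod_cast (by omega : 0 < p - 1)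
  rw [div_le_one hp1]
  have h1 : (univ : Finset (ZMod p)).filter T ⊆ univ.erase 0 := by
    intro x hx
    rw [mem_filter] at hx
    rw [mem_erase]
    exact ⟨fun h => h0 (h ▸ hx.2), mem_univ _⟩
  have h2 := card_le_card h1
  rw [card_erase_of_mem (mem_univ _), card_univ, ZMod.card] at h2
  exact_mod_cast h2

open Classical in
/-- one good prime -/
lemma good_one {p : ℕ} [hp : Fact p.Prime] {T : ZMod p → Prop} {K : ℝ} (h0 : ¬ T 0)
    (hT : Rep p (fun x => if T x then (1 : ℂ) else 0) K) {E : Finset ℕ}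
    {M : ℝ} (hM : 0 ≤ M) (hG : Good E M p) :
    |(#(E.filter (fun m : ℕ => T (m : ZMod p))) : ℝ) - dens p T * #E| ≤
      K * M + #(E.filter (fun m => p ∣ m)) := by
  have h1 := good_sum hT hM hG
  have e1 : ∑ m ∈ E, (if T (m : ZMod p) then (1 : ℂ) else 0) =
      ((#(E.filter (fun m : ℕ => T (m : ZMod p))) : ℝ) : ℂ) := by
    rw [card_filter]
    push_cast
    refine sum_congr rfl fun _ _ => ?_
    split_ifs <;> simp
  have e2 : (∑ x, if T x then (1 : ℂ) else 0) / ((p - 1 : ℕ) : ℂ) = ((dens p T : ℝ) : ℂ) := by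
    rw [dens_eq, card_filter]
    push_cast
    congr 1
    refine sum_congr rfl fun _ _ => ?_
    split_ifs <;> simp
  rw [e1, e2] at h1
  have h2 : |(#(E.filter (fun m : ℕ => T (m : ZMod p))) : ℝ) -
      dens p T * #(E.filter (fun m => ¬ p ∣ m))| ≤ K * M := by
    rw [← Real.norm_eq_abs, ← Complex.norm_real]
    push_cast at h1 ⊢
    exact h1
  have h3 : (#E : ℝ) = #(E.filter (fun m => p ∣ m)) + #(E.filter (fun m => ¬ p ∣ m)) := by
    exact_mod_cast (card_filter_add_card_filter_not (s := E) (fun m => p ∣ m)).symm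
  have h4 := dens_nonneg p T
  have h5 := dens_le_one T h0
  have h6 : (0 : ℝ) ≤ #(E.filter (fun m => p ∣ m)) := Nat.cast_nonneg _
  have h7 : 0 ≤ dens p T * #(E.filter (fun m => p ∣ m)) := by positivity
  have h8 : dens p T * #(E.filter (fun m => p ∣ m)) ≤ #(E.filter (fun m => p ∣ m)) :=
    mul_le_of_le_one_left h6 h5
  rw [abs_le] at h2 ⊢
  rw [h3, mul_add]
  constructor <;> linarith [h2.1, h2.2]

open Classical in
/-- all primes -/
lemma sum_D {S : Finset ℕ} (hS : ∀ p ∈ S, p.Prime) {T : ∀ p : ℕ, ZMod p → Prop} {K : ℝ}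
    (hT : ∀ p ∈ S, ∀ h : Fact p.Prime, ¬ T p 0 ∧ @Rep p h (fun x => if T p x then (1 : ℂ) else 0) K)
    {E : Finset ℕ} (hE0 : ∀ m ∈ E, m ≠ 0) {M K₂ : ℝ} (hK : 0 ≤ K) (hM : 0 ≤ M)
    (hK₂ : ∀ m ∈ E, (m.divisors.card : ℝ) ≤ K₂) :
    |∑ m ∈ E, ((#(S.filter (fun p => T p (m : ZMod p))) : ℝ) - ∑ p ∈ S, dens p (T p))| ≤
      #S * (K * M) + #(S.filter (fun p => ¬ Good E M p)) * #E + #E * K₂ := by
  have e1 : ∑ m ∈ E, ((#(S.filter (fun p => T p (m : ZMod p))) : ℝ) - ∑ p ∈ S, dens p (T p)) =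
      ∑ p ∈ S, ((#(E.filter (fun m : ℕ => T p (m : ZMod p))) : ℝ) - dens p (T p) * #E) := by
    rw [sum_sub_distrib, sum_sub_distrib]
    congr 1
    · simp only [card_filter]
      push_cast
      rw [sum_comm]
    · rw [sum_const, nsmul_eq_mul, ← sum_mul, mul_comm]
  rw [e1]
  have h1 : ∀ p ∈ S, |(#(E.filter (fun m : ℕ => T p (m : ZMod p))) : ℝ) - dens p (T p) * #E| ≤
      K * M + (if Good E M p then (0 : ℝ) else 1) * #E + #(E.filter (fun m => p ∣ m)) := by
    intro p hp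
    have : Fact p.Prime := ⟨hS p hp⟩
    obtain ⟨h0, hR⟩ := hT p hp ⟨hS p hp⟩
    have hKM : 0 ≤ K * M := by positivity
    have h6 : (0 : ℝ) ≤ #(E.filter (fun m => p ∣ m)) := Nat.cast_nonneg _
    by_cases hG : Good E M p
    · have h2 := good_one h0 hR hM hG
      rw [if_pos hG]
      linarith
    · rw [if_neg hG]
      have h2 : (#(E.filter (fun m : ℕ => T p (m : ZMod p))) : ℝ) ≤ #E := by
        exact_mod_cast card_filter_le _ _
      have h3 : (0 : ℝ) ≤ #(E.filter (fun m : ℕ => T p (m : ZMod p))) := Nat.cast_nonneg _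
      have h4 := dens_nonneg p (T p)
      have h5 := dens_le_one (T p) h0
      have h7 : (0 : ℝ) ≤ #E := Nat.cast_nonneg _
      have h8 : dens p (T p) * #E ≤ #E := mul_le_of_le_one_left h7 h5
      have h9 : 0 ≤ dens p (T p) * #E := by positivity
      rw [abs_le]
      constructor <;> linarith
  refine (abs_sum_le_sum_abs _ _).trans ((sum_le_sum h1).trans ?_)
  rw [sum_add_distrib, sum_add_distrib, sum_const, nsmul_eq_mul, ← sum_mul]
  have h2 : ∑ p ∈ S, (if Good E M p then (0 : ℝ) else 1) = #(S.filter (fun p => ¬ Good E M p)) := by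
    rw [card_filter]
    push_cast
    refine sum_congr rfl fun p _ => ?_
    by_cases h : Good E M p
    · rw [if_pos h, if_neg (not_not.2 h)]
    · rw [if_neg h, if_pos h]
  have h3 : ∑ p ∈ S, (#(E.filter (fun m => p ∣ m)) : ℝ) ≤ #E * K₂ := by
    have e : ∑ p ∈ S, (#(E.filter (fun m => p ∣ m)) : ℝ) = ∑ m ∈ E, (#(S.filter (fun p => p ∣ m)) : ℝ) := by
      simp only [card_filter]
      push_cast
      rw [sum_comm]
    rw [e]
    calc ∑ m ∈ E, (#(S.filter (fun p => p ∣ m)) : ℝ) ≤ ∑ m ∈ E, K₂ := by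
          refine sum_le_sum fun m hm => le_trans ?_ (hK₂ m hm)
          have : S.filter (fun p => p ∣ m) ⊆ m.divisors := by
            intro p hp
            rw [mem_filter] at hp
            exact Nat.mem_divisors.2 ⟨hp.2, hE0 m hm⟩
          exact_mod_cast card_le_card this
      _ = _ := by rw [sum_const, nsmul_eq_mul]
  rw [h2]
  linarith

end Pool.Agent.TH890.AS
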