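import Pool.Agent.TH890.AS.R2

/-!
Artin's conjecture along arbitrary sets of primes (helper890), part 3: the number of exceptions.
-/

set_option autoImplicit false

namespace Pool.Agent.TH890.AS

open Finset
open Pool.Agent.H386R2.Artin (PP Good)
open Pool.Agent.H386R2.Artin.T1 (cc)
open Pool.Agent.H771R4.SE (badCountI cc_leI)

lemma ev_rpow (a b : ℝ) (hb : 0 < b) : ∃ X₀ : ℕ, ∀ X : ℕ, X₀ ≤ X → a ≤ (X : ℝ) ^ b := by
  have h := ((tendsto_rpow_atTop hb).comp (tendsto_natCast_atTop_atTop (R := ℝ))).eventually_ge_atTop a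
  rw [Filter.eventually_atTop] at h
  obtain ⟨X₀, h⟩ := h
  exact ⟨X₀, fun X hX => h X hX⟩

/-- the deviation -/
noncomputable def dev (S : Finset ℕ) (T : ∀ p : ℕ, ZMod p → Prop) (m : ℕ) : ℝ := by
  classical
  exact (#(S.filter (fun p => T p (m : ZMod p))) : ℝ) - ∑ p ∈ S, dens p (T p)

open Classical in
lemma core {k X N : ℕ} {S E : Finset ℕ} {T : ∀ p : ℕ, ZMod p → Prop} {c lam K₃ : ℝ}
    (hX : 1 ≤ X) (hXN : X ^ 2 ≤ N ^ k) (hS : ∀ p ∈ S, p.Prime ∧ p ≤ X)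
    (hT : ∀ p ∈ S, ∀ h : Fact p.Prime, ¬ T p 0 ∧
      @Rep p h (fun x => if T p x then (1 : ℂ) else 0) ((X : ℝ) ^ c))
    (hlam : lam = #S * (X : ℝ) ^ (-c)) (hK₂ : (X : ℝ) ^ c ≤ lam / 4)
    (hE : E ⊆ Icc 1 N) (hE0 : 0 < #E)
    (hdiv : ∀ m ∈ E, (m.divisors.card : ℝ) ≤ (X : ℝ) ^ c)
    (hcc : ∀ n ∈ Icc 1 (N ^ k), (cc E k n : ℝ) ≤ K₃) (hK₃ : 0 ≤ K₃)
    (hbig : lam * #E ≤ |∑ m ∈ E, dev S T m|) :
    lam / 2 * (#E : ℝ) ^ k ≤ 12 * (N : ℝ) ^ k * K₃ * (4 * (X : ℝ) ^ (2 * c)) ^ (2 * k) := by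
  have hX0 : (0 : ℝ) < X := by exact_mod_cast hX
  have hEr : (0 : ℝ) < #E := by exact_mod_cast hE0
  set T' : ℝ := 4 * (X : ℝ) ^ (2 * c) with hT'
  have hT'0 : 0 < T' := by positivity
  have hM0 : 0 < (#E : ℝ) / T' := by positivity
  have h1 := sum_D (fun p hp => (hS p hp).1) hT (E := E)
    (fun m hm => by have := (mem_Icc.1 (hE hm)).1; omega) (M := #E / T') (by positivity) hM0.le hdiv
  have h2 : (#S : ℝ) * ((X : ℝ) ^ c * (#E / T')) = lam / 4 * #E := by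
    rw [hlam, hT']
    have e : (X : ℝ) ^ (2 * c) = (X : ℝ) ^ c * (X : ℝ) ^ c := by
      rw [← Real.rpow_add hX0]
      ring_nf
    have e2 : (X : ℝ) ^ (-c) = 1 / (X : ℝ) ^ c := by
      rw [Real.rpow_neg hX0.le, one_div]
    rw [e, e2]
    have : (0 : ℝ) < (X : ℝ) ^ c := by positivity
    field_simp
  set nb : ℝ := (#(S.filter (fun p => ¬ Good E (#E / T') p)) : ℝ) with hnb
  have h3 : lam * #E ≤ lam / 4 * #E + nb * #E + #E * (lam / 4) := by
    have h4 : (#E : ℝ) * (X : ℝ) ^ c ≤ #E * (lam / 4) := mul_le_mul_of_nonneg_left hK₂ hEr.le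
    rw [h2] at h1
    have h5 := hbig.trans h1
    linarith
  have h4 : lam / 2 ≤ nb := by
    have h5 : lam / 2 * #E ≤ nb * #E := by linarith
    exact le_of_mul_le_mul_right h5 hEr
  have h5 := badCountI E N X k (#E / T') K₃ hE hM0 hK₃ hcc
  have h6 : nb ≤ #((PP X).filter (fun p => ¬ Good E (#E / T') p)) := by
    rw [hnb]
    have : S.filter (fun p => ¬ Good E (#E / T') p) ⊆ (PP X).filter (fun p => ¬ Good E (#E / T') p) := by
      intro p hp
      rw [mem_filter] at hp ⊢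
      refine ⟨?_, hp.2⟩
      unfold PP
      rw [mem_filter, mem_range]
      have := hS p hp.1
      exact ⟨by omega, this.1⟩
    exact_mod_cast card_le_card this
  have h7 : lam / 2 * ((#E : ℝ) / T') ^ (2 * k) ≤ 12 * (N : ℝ) ^ k * K₃ * (#E : ℝ) ^ k := by
    have h8 : ((X : ℝ)) ^ 2 ≤ (N : ℝ) ^ k := by exact_mod_cast hXN
    calc lam / 2 * ((#E : ℝ) / T') ^ (2 * k)
        ≤ #((PP X).filter (fun p => ¬ Good E (#E / T') p)) * ((#E : ℝ) / T') ^ (2 * k) :=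
          mul_le_mul_of_nonneg_right (h4.trans h6) (by positivity)
      _ ≤ 6 * ((N : ℝ) ^ k + (X : ℝ) ^ 2) * (K₃ * (#E : ℝ) ^ k) := h5
      _ ≤ 6 * ((N : ℝ) ^ k + (N : ℝ) ^ k) * (K₃ * (#E : ℝ) ^ k) := by
          apply mul_le_mul_of_nonneg_right _ (by positivity)
          linarith
      _ = _ := by ring
  have hEk : (0 : ℝ) < (#E : ℝ) ^ k := by positivity
  have h8 : lam / 2 * (#E : ℝ) ^ k * (#E : ℝ) ^ k ≤ 12 * (N : ℝ) ^ k * K₃ * T' ^ (2 * k) * (#E : ℝ) ^ k := by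
    have e : ((#E : ℝ) / T') ^ (2 * k) = (#E : ℝ) ^ k * (#E : ℝ) ^ k / T' ^ (2 * k) := by
      rw [div_pow, two_mul, pow_add]
    rw [e] at h7
    have h9 : lam / 2 * ((#E : ℝ) ^ k * (#E : ℝ) ^ k / T' ^ (2 * k)) * T' ^ (2 * k) ≤
        12 * (N : ℝ) ^ k * K₃ * (#E : ℝ) ^ k * T' ^ (2 * k) :=
      mul_le_mul_of_nonneg_right h7 (by positivity)
    have e2 : lam / 2 * ((#E : ℝ) ^ k * (#E : ℝ) ^ k / T' ^ (2 * k)) * T' ^ (2 * k) =
        lam / 2 * (#E : ℝ) ^ k * (#E : ℝ) ^ k := by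
      field_simp
    rw [e2] at h9
    linarith
  exact le_of_mul_le_mul_right h8 hEk

open Classical in
theorem main (σ δ : ℝ) (hσ : 0 < σ) (hδ : 0 < δ) (k C : ℕ) (hk : 1 ≤ k) (hC : 1 ≤ C) :
    ∃ c : ℝ, 0 < c ∧ ∃ X₀ : ℕ, ∀ X : ℕ, X₀ ≤ X → ∀ N : ℕ, X ^ 2 ≤ N ^ k → N ≤ X ^ C →
    ∀ S : Finset ℕ, (∀ p ∈ S, p.Prime ∧ p ≤ X) → (X : ℝ) ^ σ ≤ #S →
    ∀ T : ∀ p : ℕ, ZMod p → Prop, (∀ p ∈ S, ∀ h : Fact p.Prime, ¬ T p 0 ∧
      @Rep p h (fun x => if T p x then (1 : ℂ) else 0) ((X : ℝ) ^ c)) →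
    (#((Icc 1 N).filter (fun m => #S * (X : ℝ) ^ (-c) < |dev S T m|)) : ℝ) ≤
      N * (X : ℝ) ^ (-(σ - δ) / k) := by
  have hkr : (1 : ℝ) ≤ k := by exact_mod_cast hk
  have hCr : (1 : ℝ) ≤ C := by exact_mod_cast hC
  obtain ⟨c, hc⟩ : ∃ c, c = min (δ / (4 * k + 3)) (σ / 4) := ⟨_, rfl⟩
  have hc0 : 0 < c := by rw [hc]; exact lt_min (by positivity) (by positivity)
  have hcδ : (4 * k + 3) * c ≤ δ := by
    have h1 : c ≤ δ / (4 * k + 3) := by rw [hc]; exact min_le_left _ _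
    rw [le_div_iff₀ (by positivity)] at h1
    linarith
  have hcσ : 4 * c ≤ σ := by
    have h1 : c ≤ σ / 4 := by rw [hc]; exact min_le_right _ _
    linarith
  obtain ⟨ε₃, hε₃⟩ : ∃ ε₃, ε₃ = c / (2 * C * k ^ 2) := ⟨_, rfl⟩
  have hε₃0 : 0 < ε₃ := by rw [hε₃]; positivity
  obtain ⟨C₃, hC₃0, hdiv⟩ := Pool.Agent.H510R2.divisor_bound ε₃ hε₃0
  obtain ⟨n1, h1⟩ := ev_rpow (max C₃ 1 ^ k) (c / 2) (by positivity)
  obtain ⟨n2, h2⟩ := ev_rpow (24 * 32 ^ k) c hc0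
  obtain ⟨n3, h3⟩ := ev_rpow 4 c hc0
  refine ⟨c, hc0, max (max n1 n2) (max n3 1), fun X hX N hXN hNX S hS hSσ T hT => ?_⟩
  have b1 := h1 X ((le_max_left _ _).trans ((le_max_left _ _).trans hX))
  have b2 := h2 X ((le_max_right _ _).trans ((le_max_left _ _).trans hX))
  have b3 := h3 X ((le_max_left _ _).trans ((le_max_right _ _).trans hX))
  have hX1 : 1 ≤ X := (le_max_right _ _).trans ((le_max_right _ _).trans hX)
  have hXr : (1 : ℝ) ≤ X := by exact_mod_cast hX1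
  have hX0 : (0 : ℝ) < X := by linarith
  have hN1 : 1 ≤ N := by
    rcases Nat.eq_zero_or_pos N with h | h
    · rw [h, zero_pow (by omega)] at hXN
      have : 0 < X ^ 2 := by positivity
      omega
    · exact h
  have hN0 : (0 : ℝ) < N := by exact_mod_cast hN1
  -- divisor bounds
  have hC₃k : C₃ ≤ max C₃ 1 ^ k := by
    calc C₃ ≤ max C₃ 1 := le_max_left _ _
      _ = (max C₃ 1) ^ 1 := (pow_one _).symm
      _ ≤ (max C₃ 1) ^ k := pow_le_pow_right₀ (le_max_right _ _) hk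
  have hpowX : ∀ n : ℕ, 1 ≤ n → n ≤ X ^ (C * k) → (n.divisors.card : ℝ) ^ k ≤ (X : ℝ) ^ c := by
    intro n hn1 hn
    have hn0 : (0 : ℝ) ≤ n := Nat.cast_nonneg _
    have e1 : (n : ℝ) ^ ε₃ ≤ (X : ℝ) ^ (c / (2 * k)) := by
      calc (n : ℝ) ^ ε₃ ≤ ((X : ℝ) ^ (C * k)) ^ ε₃ :=
            Real.rpow_le_rpow hn0 (by exact_mod_cast hn) hε₃0.le
        _ = (X : ℝ) ^ (c / (2 * k)) := by
            rw [← Real.rpow_natCast, ← Real.rpow_mul hX0.le, hε₃]
            congr 1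
            push_cast
            field_simp
    calc (n.divisors.card : ℝ) ^ k ≤ (C₃ * (n : ℝ) ^ ε₃) ^ k :=
          pow_le_pow_left₀ (Nat.cast_nonneg _) (hdiv n hn1) k
      _ ≤ (max C₃ 1 * (X : ℝ) ^ (c / (2 * k))) ^ k := by
          apply pow_le_pow_left₀ (by positivity)
          exact mul_le_mul (le_max_left _ _) e1 (by positivity) (by positivity)
      _ = max C₃ 1 ^ k * (X : ℝ) ^ (c / 2) := by
          rw [mul_pow, ← Real.rpow_natCast ((X : ℝ) ^ (c / (2 * k))), ← Real.rpow_mul hX0.le]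
          congr 2
          field_simp
      _ ≤ (X : ℝ) ^ (c / 2) * (X : ℝ) ^ (c / 2) := mul_le_mul_of_nonneg_right b1 (by positivity)
      _ = (X : ℝ) ^ c := by
          rw [← Real.rpow_add hX0]
          ring_nf
  have hdivN : ∀ m : ℕ, m ∈ Icc 1 N → (m.divisors.card : ℝ) ≤ (X : ℝ) ^ c := by
    intro m hm
    rw [mem_Icc] at hm
    refine le_trans ?_ (hpowX m hm.1 (hm.2.trans (hNX.trans (Nat.pow_le_pow_right hX1 (by nlinarith)))))
    have h4 : (1 : ℝ) ≤ m.divisors.card := by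
      have : 0 < m.divisors.card := card_pos.2 (Nat.nonempty_divisors.2 (by omega))
      exact_mod_cast this
    calc (m.divisors.card : ℝ) = (m.divisors.card : ℝ) ^ 1 := (pow_one _).symm
      _ ≤ _ := pow_le_pow_right₀ h4 hk
  have hNk : N ^ k ≤ X ^ (C * k) := by
    rw [pow_mul]
    exact Nat.pow_le_pow_left hNX k
  -- lambda
  obtain ⟨lam, hlam⟩ : ∃ lam, lam = #S * (X : ℝ) ^ (-c) := ⟨_, rfl⟩
  have hlam1 : (X : ℝ) ^ (σ - c) ≤ lam := by
    rw [hlam, sub_eq_add_neg, Real.rpow_add hX0]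
    exact mul_le_mul_of_nonneg_right hSσ (by positivity)
  have hlam0 : 0 < lam := lt_of_lt_of_le (by positivity) hlam1
  have hK₂ : (X : ℝ) ^ c ≤ lam / 4 := by
    have h4 : 4 * (X : ℝ) ^ c ≤ (X : ℝ) ^ (σ - c) := by
      calc 4 * (X : ℝ) ^ c ≤ (X : ℝ) ^ c * (X : ℝ) ^ c := mul_le_mul_of_nonneg_right b3 (by positivity)
        _ = (X : ℝ) ^ (c + c) := (Real.rpow_add hX0 _ _).symm
        _ ≤ _ := Real.rpow_le_rpow_of_exponent_le hXr (by linarith)
    linarith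
  -- one sided sets
  have key : ∀ E : Finset ℕ, E ⊆ Icc 1 N → lam * #E ≤ |∑ m ∈ E, dev S T m| →
      (#E : ℝ) ≤ N * (X : ℝ) ^ (-(σ - δ) / k) / 2 := by
    intro E hE hbig
    rcases Nat.eq_zero_or_pos (#E) with h0 | h0
    · rw [h0]
      push_cast
      positivity
    · have h4 := core (k := k) hX1 hXN hS hT hlam hK₂ hE h0 (fun m hm => hdivN m (hE hm))
        (K₃ := (X : ℝ) ^ c) (fun n hn => by
          rw [mem_Icc] at hn
          refine le_trans ?_ (hpowX n hn.1 (hn.2.trans hNk))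
          exact_mod_cast cc_leI E k n (by omega)) (by positivity) hbig
      have h5 : (#E : ℝ) ^ k ≤ (N * (X : ℝ) ^ (-(σ - δ) / k) / 2) ^ k := by
        have h6 : (X : ℝ) ^ (σ - c) * (#E : ℝ) ^ k ≤
            24 * (N : ℝ) ^ k * (X : ℝ) ^ c * (4 * (X : ℝ) ^ (2 * c)) ^ (2 * k) := by
          have : (X : ℝ) ^ (σ - c) * (#E : ℝ) ^ k ≤ lam * (#E : ℝ) ^ k :=
            mul_le_mul_of_nonneg_right hlam1 (by positivity)
          linarith
        have e1 : (4 * (X : ℝ) ^ (2 * c)) ^ (2 * k) = 16 ^ k * (X : ℝ) ^ (4 * k * c) := by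
          rw [mul_pow, pow_mul, ← Real.rpow_natCast ((X : ℝ) ^ (2 * c)), ← Real.rpow_mul hX0.le]
          norm_num
          congr 1
          ring
        have e2 : (N * (X : ℝ) ^ (-(σ - δ) / k) / 2) ^ k = (N : ℝ) ^ k * (X : ℝ) ^ (-(σ - δ)) / 2 ^ k := by
          rw [div_pow, mul_pow, ← Real.rpow_natCast ((X : ℝ) ^ (-(σ - δ) / k)), ← Real.rpow_mul hX0.le]
          congr 3
          field_simp
        rw [e2]
        rw [e1] at h6
        have hp1 : (0 : ℝ) < (X : ℝ) ^ (σ - c) := by positivity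
        refine le_of_mul_le_mul_left (h6.trans ?_) hp1
        have e3 : (X : ℝ) ^ (σ - c) * ((N : ℝ) ^ k * (X : ℝ) ^ (-(σ - δ)) / 2 ^ k) =
            (N : ℝ) ^ k * (X : ℝ) ^ (δ - c) / 2 ^ k := by
          have : (X : ℝ) ^ (δ - c) = (X : ℝ) ^ (σ - c) * (X : ℝ) ^ (-(σ - δ)) := by
            rw [← Real.rpow_add hX0]
            ring_nf
          rw [this]
          ring
        rw [e3, le_div_iff₀ (by positivity)]
        have e4 : 24 * (N : ℝ) ^ k * (X : ℝ) ^ c * (16 ^ k * (X : ℝ) ^ (4 * k * c)) * 2 ^ k =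
            (N : ℝ) ^ k * (24 * 32 ^ k * (X : ℝ) ^ (c + 4 * k * c)) := by
          rw [Real.rpow_add hX0]
          have : (32 : ℝ) ^ k = 16 ^ k * 2 ^ k := by rw [← mul_pow]; norm_num
          rw [this]
          ring
        rw [e4]
        apply mul_le_mul_of_nonneg_left _ (by positivity)
        calc 24 * 32 ^ k * (X : ℝ) ^ (c + 4 * k * c) ≤ (X : ℝ) ^ c * (X : ℝ) ^ (c + 4 * k * c) :=
              mul_le_mul_of_nonneg_right b2 (by positivity)
          _ = (X : ℝ) ^ (c + (c + 4 * k * c)) := (Real.rpow_add hX0 _ _).symm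
          _ ≤ _ := Real.rpow_le_rpow_of_exponent_le hXr (by linarith)
      exact le_of_pow_le_pow_left₀ (by omega) (by positivity) h5
  -- both sides
  have hp := key ((Icc 1 N).filter (fun m => lam < dev S T m)) (filter_subset _ _) (by
    refine le_trans ?_ (le_abs_self _)
    rw [mul_comm, ← nsmul_eq_mul, ← sum_const]
    exact sum_le_sum fun m hm => (mem_filter.1 hm).2.le)
  have hm := key ((Icc 1 N).filter (fun m => lam < -dev S T m)) (filter_subset _ _) (by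
    refine le_trans ?_ (neg_le_abs _)
    rw [mul_comm, ← nsmul_eq_mul, ← sum_const, ← sum_neg_distrib]
    exact sum_le_sum fun m hm => (mem_filter.1 hm).2.le)
  have hsub : (Icc 1 N).filter (fun m => #S * (X : ℝ) ^ (-c) < |dev S T m|) ⊆
      (Icc 1 N).filter (fun m => lam < dev S T m) ∪ (Icc 1 N).filter (fun m => lam < -dev S T m) := by
    intro m hm
    rw [mem_filter, ← hlam, lt_abs] at hm
    rw [mem_union, mem_filter, mem_filter]
    rcases hm.2 with h | h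
    · exact Or.inl ⟨hm.1, h⟩
    · exact Or.inr ⟨hm.1, h⟩
  have h5 := (card_le_card hsub).trans (card_union_le _ _)
  have h6 : (#((Icc 1 N).filter (fun m => #S * (X : ℝ) ^ (-c) < |dev S T m|)) : ℝ) ≤
      #((Icc 1 N).filter (fun m => lam < dev S T m)) +
        #((Icc 1 N).filter (fun m => lam < -dev S T m)) := by exact_mod_cast h5
  linarith

end Pool.Agent.TH890.AS
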