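import Pool.Agent.TH890.AS.R3

/-!
Artin's conjecture along arbitrary sets of primes (helper890), part 4: the local density.
-/

set_option autoImplicit false

namespace Pool.Agent.TH890.AS

open Finset

section Group

variable {G : Type*} [CommGroup G] [Fintype G] [DecidableEq G] [IsCyclic G]

/-- powers in a cyclic group -/
lemma pow_iff {n d : ℕ} (hn : Fintype.card G = n) (hd : d ∣ n) (b : G) :
    b ^ (n / d) = 1 ↔ ∃ y : G, y ^ d = b := by
  have hn0 : 0 < n := by rw [← hn]; exact Fintype.card_pos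
  have hd0 : 0 < d := Nat.pos_of_dvd_of_pos hd hn0
  have hle : (powMonoidHom d : G →* G).range ≤ (powMonoidHom (n / d) : G →* G).ker := by
    rintro x ⟨y, rfl⟩
    rw [MonoidHom.mem_ker, powMonoidHom_apply, powMonoidHom_apply, ← pow_mul, Nat.mul_div_cancel' hd, ← hn,
      pow_card_eq_one]
  have hc : Nat.card (powMonoidHom d : G →* G).range = Nat.card (powMonoidHom (n / d) : G →* G).ker := by
    rw [IsCyclic.card_powMonoidHom_range, IsCyclic.card_powMonoidHom_ker, Nat.card_eq_fintype_card, hn,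
      Nat.gcd_eq_right hd, Nat.gcd_eq_right (Nat.div_dvd_of_dvd hd)]
  have he : (powMonoidHom d : G →* G).range = (powMonoidHom (n / d) : G →* G).ker := by
    apply SetLike.coe_injective
    apply Set.eq_of_subset_of_ncard_le (by exact_mod_cast hle) _ (Set.toFinite _)
    rw [← Nat.card_coe_set_eq, ← Nat.card_coe_set_eq]
    exact hc.ge
  constructor
  · intro h
    have h1 : b ∈ (powMonoidHom (n / d) : G →* G).ker := by
      rw [MonoidHom.mem_ker, powMonoidHom_apply]; exact h
    rw [← he] at h1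
    obtain ⟨y, hy⟩ := h1
    exact ⟨y, by rw [← hy, powMonoidHom_apply]⟩
  · rintro ⟨y, rfl⟩
    rw [← pow_mul, Nat.mul_div_cancel' hd, ← hn, pow_card_eq_one]

/-- the size of a fibre -/
lemma card_A {n d r : ℕ} (hn : Fintype.card G = n) (hd : d ∣ n) (hr : r.Coprime d) (hr0 : r ≠ 0) (b : G) :
    #((univ : Finset G).filter (fun x => (b * x ^ r) ^ (n / d) = 1)) = n / d := by
  have hn0 : 0 < n := by rw [← hn]; exact Fintype.card_pos
  have hd0 : 0 < d := Nat.pos_of_dvd_of_pos hd hn0
  have hcn : ∀ y : G, y ^ n = 1 := fun y => by rw [← hn, pow_card_eq_one]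
  set φ : G →* G := powMonoidHom (r * (n / d)) with hφ
  have hφ' : ∀ x, φ x = x ^ (r * (n / d)) := fun x => by rw [hφ, powMonoidHom_apply]
  obtain ⟨s, k, hs⟩ : ∃ s k : ℕ, r * s = 1 + d * k := by
    rcases Nat.lt_or_ge 1 d with h1 | h1
    · obtain ⟨s, _, hs⟩ := Nat.exists_mul_mod_eq_one_of_coprime hr h1
      refine ⟨s, r * s / d, ?_⟩
      have := Nat.mod_add_div (r * s) d
      rw [hs] at this
      exact this.symm
    · have h2 : d = 1 := by omega
      exact ⟨1, r - 1, by rw [h2]; omega⟩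
  obtain ⟨y, hy⟩ : ∃ y : G, y ^ (n / d) = (b ^ (n / d))⁻¹ := by
    rw [← pow_iff hn (Nat.div_dvd_of_dvd hd), Nat.div_div_self hd hn0.ne', inv_pow, ← pow_mul,
      Nat.div_mul_cancel hd, hcn, inv_one]
  have hx0 : φ (y ^ s) = (b ^ (n / d))⁻¹ := by
    rw [hφ', ← pow_mul]
    have e : s * (r * (n / d)) = n / d + n * k := by
      calc s * (r * (n / d)) = (r * s) * (n / d) := by ring
        _ = n / d + (d * (n / d)) * k := by rw [hs]; ring
        _ = _ := by rw [Nat.mul_div_cancel' hd]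
    rw [e, pow_add, pow_mul, hcn, one_pow, mul_one, hy]
  have h1 : (univ : Finset G).filter (fun x => (b * x ^ r) ^ (n / d) = 1) =
      univ.filter (fun x => φ x = (b ^ (n / d))⁻¹) := by
    apply filter_congr
    intro x _
    rw [mul_pow, ← pow_mul, hφ', mul_comm, mul_eq_one_iff_eq_inv]
  rw [h1, MonoidHom.card_fiber_eq_of_mem_range φ ⟨_, hx0⟩ ⟨1, map_one φ⟩]
  have h2 : #((univ : Finset G).filter (fun x => φ x = 1)) = Nat.card φ.ker := by
    rw [Nat.card_eq_fintype_card, Fintype.card_subtype]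
    congr 1
    ext x
    simp [MonoidHom.mem_ker]
  rw [h2, hφ, IsCyclic.card_powMonoidHom_ker, Nat.card_eq_fintype_card, hn]
  have h3 : n = d * (n / d) := (Nat.mul_div_cancel' hd).symm
  calc n.gcd (r * (n / d)) = (d * (n / d)).gcd (r * (n / d)) := by rw [← h3]
    _ = d.gcd r * (n / d) := Nat.gcd_mul_right _ _ _
    _ = n / d := by rw [Nat.gcd_comm, hr, one_mul]

/-- solutions for several primes -/
lemma pow_all_iff {n : ℕ} (hn : Fintype.card G = n) (t : Finset ℕ) (ht : ∀ l ∈ t, l.Prime ∧ l ∣ n)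
    (y : G) : (∀ l ∈ t, y ^ (n / l) = 1) ↔ y ^ (n / ∏ l ∈ t, l) = 1 := by
  have hn0 : 0 < n := by rw [← hn]; exact Fintype.card_pos
  have hy : orderOf y ∣ n := by rw [← hn]; exact orderOf_dvd_card
  have key : ∀ d : ℕ, d ∣ n → (y ^ (n / d) = 1 ↔ d ∣ n / orderOf y) := by
    intro d hd
    rw [← orderOf_dvd_iff_pow_eq_one]
    have ho : 0 < orderOf y := orderOf_pos y
    have hd0 : 0 < d := Nat.pos_of_dvd_of_pos hd hn0
    rw [Nat.dvd_div_iff_mul_dvd hd, Nat.dvd_div_iff_mul_dvd hy, mul_comm]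
  have hprod : ∏ l ∈ t, l ∣ n :=
    Finset.prod_primes_dvd n (fun l hl => (ht l hl).1.prime) (fun l hl => (ht l hl).2)
  rw [key _ hprod]
  constructor
  · intro h
    exact Finset.prod_primes_dvd _ (fun l hl => (ht l hl).1.prime)
      (fun l hl => (key l (ht l hl).2).1 (h l hl))
  · intro h l hl
    exact (key l (ht l hl).2).2 ((Finset.dvd_prod_of_mem _ hl).trans h)

/-- the number of `x` such that `b x ^ r` is an `l`-th power for no `l ∈ L` -/
lemma card_L {n r : ℕ} (hn : Fintype.card G = n) (hr0 : r ≠ 0) (L : Finset ℕ)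
    (hL : ∀ l ∈ L, l.Prime ∧ l ∣ n ∧ ¬ l ∣ r) (b : G) :
    (#((univ : Finset G).filter (fun x => ∀ l ∈ L, (b * x ^ r) ^ (n / l) ≠ 1)) : ℝ) =
      n * ∏ l ∈ L, (1 - 1 / (l : ℝ)) := by
  classical
  have hn0 : 0 < n := by rw [← hn]; exact Fintype.card_pos
  have h1 : ∀ x : G, (if ∀ l ∈ L, (b * x ^ r) ^ (n / l) ≠ 1 then (1 : ℝ) else 0) =
      ∑ t ∈ L.powerset, (∏ _l ∈ t, (-1 : ℝ)) * (if ∀ l ∈ t, (b * x ^ r) ^ (n / l) = 1 then 1 else 0) := by
    intro x
    have e : (if ∀ l ∈ L, (b * x ^ r) ^ (n / l) ≠ 1 then (1 : ℝ) else 0) =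
        ∏ l ∈ L, (1 + (-1) * (if (b * x ^ r) ^ (n / l) = 1 then (1 : ℝ) else 0)) := by
      by_cases h : ∀ l ∈ L, (b * x ^ r) ^ (n / l) ≠ 1
      · rw [if_pos h]
        symm
        apply prod_eq_one
        intro l hl
        rw [if_neg (h l hl)]
        ring
      · rw [if_neg h]
        push Not at h
        obtain ⟨l, hl, h2⟩ := h
        symm
        apply prod_eq_zero hl
        rw [if_pos h2]
        ring
    rw [e, prod_one_add]
    refine sum_congr rfl fun t _ => ?_
    rw [prod_mul_distrib]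
    congr 1
    by_cases h : ∀ l ∈ t, (b * x ^ r) ^ (n / l) = 1
    · rw [if_pos h]
      exact prod_eq_one fun l hl => if_pos (h l hl)
    · rw [if_neg h]
      push Not at h
      obtain ⟨l, hl, h2⟩ := h
      exact prod_eq_zero hl (if_neg h2)
  have h2 : ∀ t ∈ L.powerset, ∑ x : G, (if ∀ l ∈ t, (b * x ^ r) ^ (n / l) = 1 then (1 : ℝ) else 0) =
      n * ∏ l ∈ t, (1 / (l : ℝ)) := by
    intro t ht
    rw [mem_powerset] at ht
    have hprod : ∏ l ∈ t, l ∣ n :=
      Finset.prod_primes_dvd n (fun l hl => (hL l (ht hl)).1.prime) (fun l hl => (hL l (ht hl)).2.1)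
    have hcop : r.Coprime (∏ l ∈ t, l) := by
      apply Nat.Coprime.prod_right
      intro l hl
      exact ((Nat.Prime.coprime_iff_not_dvd (hL l (ht hl)).1).2 (hL l (ht hl)).2.2).symm
    have h3 := card_A hn hprod hcop hr0 b
    have e : ∑ x : G, (if ∀ l ∈ t, (b * x ^ r) ^ (n / l) = 1 then (1 : ℝ) else 0) =
        (#((univ : Finset G).filter (fun x => (b * x ^ r) ^ (n / ∏ l ∈ t, l) = 1)) : ℝ) := by
      rw [card_filter]
      push_cast
      refine sum_congr rfl fun x _ => ?_
      simp only [pow_all_iff hn t (fun l hl => ⟨(hL l (ht hl)).1, (hL l (ht hl)).2.1⟩) (b * x ^ r)]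
    rw [e, h3, Nat.cast_div hprod (by
      have : 0 < ∏ l ∈ t, l := Nat.pos_of_dvd_of_pos hprod hn0
      exact_mod_cast this.ne')]
    push_cast
    rw [prod_div_distrib, prod_const_one]
    ring
  calc (#((univ : Finset G).filter (fun x => ∀ l ∈ L, (b * x ^ r) ^ (n / l) ≠ 1)) : ℝ)
      = ∑ x : G, (if ∀ l ∈ L, (b * x ^ r) ^ (n / l) ≠ 1 then (1 : ℝ) else 0) := by
        rw [card_filter]
        push_cast
        rfl
    _ = ∑ t ∈ L.powerset, (∏ _l ∈ t, (-1 : ℝ)) *
          ∑ x : G, (if ∀ l ∈ t, (b * x ^ r) ^ (n / l) = 1 then (1 : ℝ) else 0) := by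
        simp only [h1]
        rw [sum_comm]
        simp only [mul_sum]
    _ = ∑ t ∈ L.powerset, n * ∏ l ∈ t, (-(1 / (l : ℝ))) := by
        refine sum_congr rfl fun t ht => ?_
        rw [h2 t ht]
        have e : ∏ l ∈ t, (-(1 / (l : ℝ))) = (∏ _l ∈ t, (-1 : ℝ)) * ∏ l ∈ t, (1 / (l : ℝ)) := by
          rw [← prod_mul_distrib]
          exact prod_congr rfl fun l _ => by ring
        rw [e]
        ring
    _ = n * ∏ l ∈ L, (1 + (-(1 / (l : ℝ)))) := by rw [← mul_sum, prod_one_add]
    _ = _ := by simp only [sub_eq_add_neg]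

end Group

open Classical in
/-- the local density of `B m ^ r` being a primitive root modulo `p` -/
noncomputable def locDens (B : ℤ) (r p : ℕ) : ℝ :=
  if (p : ℤ) ∣ B ∨ ∃ l : ℕ, l.Prime ∧ l ∣ r ∧ l ∣ p - 1 ∧ ∃ y : ZMod p, y ^ l = (B : ZMod p) then 0
  else ∏ l ∈ (p - 1).primeFactors.filter (fun l => ¬ l ∣ r), (1 - 1 / (l : ℝ))

lemma order_zero {p : ℕ} [hp : Fact p.Prime] : orderOf (0 : ZMod p) ≠ p - 1 := by
  have hp1 : 0 < p - 1 := by have := hp.out.one_lt; omega
  intro h1
  have h2 : (0 : ZMod p) ^ (p - 1) = 1 := by rw [← h1]; exact pow_orderOf_eq_one _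
  rw [zero_pow hp1.ne'] at h2
  exact zero_ne_one h2

theorem dens_art {p : ℕ} [hp : Fact p.Prime] (B : ℤ) {r : ℕ} (hr : r ≠ 0) :
    dens p (fun x => orderOf ((B : ZMod p) * x ^ r) = p - 1) = locDens B r p := by
  classical
  have hp1 : 0 < p - 1 := by have := hp.out.one_lt; omega
  rw [dens_eq]
  unfold locDens
  by_cases hB : (p : ℤ) ∣ B
  · rw [if_pos (Or.inl hB)]
    have hB0 : (B : ZMod p) = 0 := (ZMod.intCast_zmod_eq_zero_iff_dvd B p).2 hB
    have e : (univ : Finset (ZMod p)).filter (fun x => orderOf ((B : ZMod p) * x ^ r) = p - 1) = ∅ := by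
      rw [filter_eq_empty_iff]
      intro x _
      rw [hB0, zero_mul]
      exact order_zero
    rw [e, card_empty, Nat.cast_zero, zero_div]
  · have hB0 : (B : ZMod p) ≠ 0 := fun h => hB ((ZMod.intCast_zmod_eq_zero_iff_dvd B p).1 h)
    obtain ⟨b, hb⟩ : ∃ b : (ZMod p)ˣ, (b : ZMod p) = B := ⟨Units.mk0 _ hB0, rfl⟩
    have hcard : Fintype.card (ZMod p)ˣ = p - 1 := ZMod.card_units p
    have hcn : ∀ y : (ZMod p)ˣ, y ^ (p - 1) = 1 := fun y => by rw [← hcard, pow_card_eq_one]
    have h1 : #((univ : Finset (ZMod p)).filter (fun x => orderOf ((B : ZMod p) * x ^ r) = p - 1)) =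
        #((univ : Finset (ZMod p)ˣ).filter (fun u => orderOf (b * u ^ r) = p - 1)) := by
      symm
      apply card_bij (fun (u : (ZMod p)ˣ) _ => (u : ZMod p))
      · intro u hu
        rw [mem_filter] at hu ⊢
        refine ⟨mem_univ _, ?_⟩
        rw [← hb, ← Units.val_pow_eq_pow_val, ← Units.val_mul, orderOf_units]
        exact hu.2
      · intro u _ v _ h
        exact Units.ext h
      · intro x hx
        rw [mem_filter] at hx
        have hx0 : x ≠ 0 := by
          intro h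
          rw [h, zero_pow hr, mul_zero] at hx
          exact order_zero hx.2
        refine ⟨Units.mk0 x hx0, ?_, rfl⟩
        rw [mem_filter]
        refine ⟨mem_univ _, ?_⟩
        rw [← orderOf_units, Units.val_mul, Units.val_pow_eq_pow_val, hb]
        exact hx.2
    have h2 : ∀ y : (ZMod p)ˣ, orderOf y = p - 1 ↔ ∀ l ∈ (p - 1).primeFactors, y ^ ((p - 1) / l) ≠ 1 := by
      intro y
      constructor
      · intro ho l hl
        have hl1 := (Nat.prime_of_mem_primeFactors hl).one_lt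
        have hl2 : 0 < (p - 1) / l :=
          Nat.div_pos (Nat.le_of_dvd hp1 (Nat.dvd_of_mem_primeFactors hl)) (by omega)
        apply pow_ne_one_of_lt_orderOf hl2.ne'
        rw [ho]
        exact Nat.div_lt_self hp1 hl1
      · intro h
        apply orderOf_eq_of_pow_and_pow_div_prime hp1 (hcn y)
        intro l hl hd
        exact h l (Nat.mem_primeFactors.2 ⟨hl, hd, hp1.ne'⟩)
    have h3 : ∀ l, l ∣ r → l ∣ p - 1 → ∀ u : (ZMod p)ˣ, (b * u ^ r) ^ ((p - 1) / l) = b ^ ((p - 1) / l) := by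
      intro l hlr hln u
      obtain ⟨s, rfl⟩ := hlr
      rw [mul_pow, ← pow_mul]
      have e : l * s * ((p - 1) / l) = (p - 1) * s := by
        rw [mul_right_comm, Nat.mul_div_cancel' hln]
      rw [e, pow_mul, hcn, one_pow, mul_one]
    by_cases hl : ∃ l : ℕ, l.Prime ∧ l ∣ r ∧ l ∣ p - 1 ∧ ∃ y : ZMod p, y ^ l = (B : ZMod p)
    · rw [if_pos (Or.inr hl), h1]
      obtain ⟨l, hlp, hlr, hln, y, hy⟩ := hl
      have e : (univ : Finset (ZMod p)ˣ).filter (fun u => orderOf (b * u ^ r) = p - 1) = ∅ := by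
        rw [filter_eq_empty_iff]
        intro u _ ho
        rw [h2] at ho
        apply ho l (Nat.mem_primeFactors.2 ⟨hlp, hln, hp1.ne'⟩)
        rw [h3 l hlr hln, pow_iff hcard hln]
        have hy0 : y ≠ 0 := by
          intro h
          rw [h, zero_pow hlp.ne_zero] at hy
          exact hB0 hy.symm
        refine ⟨Units.mk0 y hy0, Units.ext ?_⟩
        rw [Units.val_pow_eq_pow_val, hb]
        exact hy
      rw [e, card_empty, Nat.cast_zero, zero_div]
    · rw [if_neg (by rw [not_or]; exact ⟨hB, hl⟩), h1]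
      push Not at hl
      set L := (p - 1).primeFactors.filter (fun l => ¬ l ∣ r) with hL
      have h4 : (univ : Finset (ZMod p)ˣ).filter (fun u => orderOf (b * u ^ r) = p - 1) =
          univ.filter (fun u => ∀ l ∈ L, (b * u ^ r) ^ ((p - 1) / l) ≠ 1) := by
        apply filter_congr
        intro u _
        rw [h2]
        constructor
        · intro h l hlL
          rw [hL, mem_filter] at hlL
          exact h l hlL.1
        · intro h l hlm
          by_cases hlr : l ∣ r
          · have hln := Nat.dvd_of_mem_primeFactors hlm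
            rw [h3 l hlr hln]
            intro h5
            rw [pow_iff hcard hln] at h5
            obtain ⟨y, hy⟩ := h5
            apply hl l (Nat.prime_of_mem_primeFactors hlm) hlr hln (y : ZMod p)
            rw [← Units.val_pow_eq_pow_val, hy, hb]
          · exact h l (by rw [hL, mem_filter]; exact ⟨hlm, hlr⟩)
      rw [h4, card_L hcard hr L (fun l hlL => by
        rw [hL, mem_filter] at hlL
        exact ⟨Nat.prime_of_mem_primeFactors hlL.1, Nat.dvd_of_mem_primeFactors hlL.1, hlL.2⟩) b]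
      have : ((p - 1 : ℕ) : ℝ) ≠ 0 := by exact_mod_cast hp1.ne'
      rw [mul_comm, mul_div_assoc, div_self this, mul_one]

end Pool.Agent.TH890.AS
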