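import Pool.Agent.TH890.AS.R4

/-!
Artin's conjecture along arbitrary sets of primes (helper890), part 5: the theorem.
-/

set_option autoImplicit false

namespace Pool.Agent.TH890.AS

open Finset

lemma rep_mono {p : ℕ} [Fact p.Prime] {f : ZMod p → ℂ} {K L : ℝ} (h : Rep p f K) (hKL : K ≤ L) :
    Rep p f L := by
  obtain ⟨c, hc, hf⟩ := h
  exact ⟨c, hc.trans hKL, hf⟩

lemma two_pow_le {n : ℕ} (hn : n ≠ 0) : ∏ l ∈ n.primeFactors, ((1 : ℝ) + 1) ≤ n.divisors.card := by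
  rw [Nat.card_divisors hn]
  push_cast
  apply prod_le_prod (fun _ _ => by norm_num)
  intro l hl
  have h1 : 1 ≤ n.factorization l :=
    (Nat.prime_of_mem_primeFactors hl).factorization_pos_of_dvd hn (Nat.dvd_of_mem_primeFactors hl)
  have h2 : (1 : ℝ) ≤ n.factorization l := by exact_mod_cast h1
  linarith

open Classical in
theorem artin_sets (σ δ : ℝ) (hσ : 0 < σ) (hδ : 0 < δ) (k C : ℕ) (hk : 1 ≤ k) (hC : 1 ≤ C) :
    ∃ c : ℝ, 0 < c ∧ ∃ X₀ : ℕ, ∀ X : ℕ, X₀ ≤ X → ∀ N : ℕ, X ^ 2 ≤ N ^ k → N ≤ X ^ C →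
    ∀ S : Finset ℕ, (∀ p ∈ S, p.Prime ∧ p ≤ X) → (X : ℝ) ^ σ ≤ #S → ∀ (B : ℤ) (r : ℕ), 1 ≤ r →
    (#((Icc 1 N).filter (fun m : ℕ => #S * (X : ℝ) ^ (-c) <
      |(#(S.filter (fun p => orderOf ((B * (m : ℤ) ^ r : ℤ) : ZMod p) = p - 1)) : ℝ) -
        ∑ p ∈ S, locDens B r p|)) : ℝ) ≤ N * (X : ℝ) ^ (-(σ - δ) / k) := by
  obtain ⟨c, hc0, n1, hmain⟩ := main σ δ hσ hδ k C hk hC
  obtain ⟨C₄, hC₄, hdiv⟩ := Pool.Agent.H510R2.divisor_bound (c / 2) (by positivity)
  obtain ⟨n2, h2⟩ := ev_rpow C₄ (c / 2) (by positivity)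
  refine ⟨c, hc0, max (max n1 n2) 1, fun X hX N hXN hNX S hS hSσ B r hr => ?_⟩
  have a1 : n1 ≤ X := (le_max_left _ _).trans ((le_max_left _ _).trans hX)
  have a2 := h2 X ((le_max_right _ _).trans ((le_max_left _ _).trans hX))
  have hX1 : 1 ≤ X := (le_max_right _ _).trans hX
  have hXr : (1 : ℝ) ≤ X := by exact_mod_cast hX1
  have hX0 : (0 : ℝ) < X := by linarith
  have hr0 : r ≠ 0 := by omega
  have h := hmain X a1 N hXN hNX S hS hSσ
    (fun p x => orderOf ((B : ZMod p) * x ^ r) = p - 1) (by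
      intro p hp hF
      have hprime := (hS p hp).1
      refine ⟨?_, ?_⟩
      · rw [zero_pow hr0, mul_zero]
        exact order_zero
      · refine rep_mono (K := ∏ l ∈ (p - 1).primeFactors, ((1 : ℝ) + 1))
          (by convert rep_art (B : ZMod p) hr0) ?_
        have hp1 : 1 ≤ p - 1 := by have := hprime.one_lt; omega
        refine (two_pow_le (by omega)).trans ((hdiv (p - 1) hp1).trans ?_)
        have h4 : ((p - 1 : ℕ) : ℝ) ≤ X := by
          have := (hS p hp).2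
          exact_mod_cast (by omega : p - 1 ≤ X)
        calc C₄ * ((p - 1 : ℕ) : ℝ) ^ (c / 2) ≤ (X : ℝ) ^ (c / 2) * (X : ℝ) ^ (c / 2) := by
              apply mul_le_mul a2 _ (by positivity) (by positivity)
              exact Real.rpow_le_rpow (Nat.cast_nonneg _) h4 (by positivity)
          _ = (X : ℝ) ^ c := by
              rw [← Real.rpow_add hX0]
              ring_nf)
  refine le_trans (le_of_eq ?_) h
  congr 2
  apply filter_congr
  intro m _
  unfold dev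
  have e1 : ∑ p ∈ S, locDens B r p =
      ∑ p ∈ S, dens p (fun x => orderOf ((B : ZMod p) * x ^ r) = p - 1) := by
    refine sum_congr rfl fun p hp => ?_
    have : Fact p.Prime := ⟨(hS p hp).1⟩
    exact (dens_art B hr0).symm
  have e2 : S.filter (fun p => orderOf ((B * (m : ℤ) ^ r : ℤ) : ZMod p) = p - 1) =
      S.filter (fun p => orderOf ((B : ZMod p) * ((m : ℕ) : ZMod p) ^ r) = p - 1) := by
    apply filter_congr
    intro p _
    push_cast
    rfl
  rw [e1, e2]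
  apply Iff.of_eq
  congr!

end Pool.Agent.TH890.AS
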